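import Pool.Agent.Lib.MP_a4c1f4_lc.SR.Spec

set_option autoImplicit false

/-!
Project SR: the cost of one run is at most the integral of the changes of the rounded differences.
-/

namespace Pool.Agent.MP_a4c1f4_lc.SR

open Finset MeasureTheory
open Pool.Agent.MP_a4c1f4_lc.Dbl.L (assigned cost Respects)
open Pool.Agent.MP_a4c1f4_lc.SO (dl Mov Fam)

namespace CstAux

/-- The sum of the indicators over all steps. -/
noncomputable def Nt {m : ℕ} (hm : 0 < m) (s : Fin m → ℝ) (cap : Fin m → ℕ)
    (y : List ℝ → Fin m → ℝ) (al : ℝ) : List ℝ → ℝ → ℝ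
  | [], _ => 0
  | x :: l, z => Nt hm s cap y al l z + bt x (s (Al hm s cap y al x l)) z

theorem bt_eq (x t : ℝ) :
    (fun z => bt x t z) = Set.indicator (Set.Ico (min x t) (max x t)) (fun _ => (1 : ℝ)) := by
  funext z
  unfold bt
  by_cases h : min x t ≤ z ∧ z < max x t
  · rw [if_pos h, Set.indicator_of_mem (show z ∈ Set.Ico (min x t) (max x t) from h)]
  · rw [if_neg h, Set.indicator_of_notMem (show z ∉ Set.Ico (min x t) (max x t) from h)]

theorem bt_int (x t : ℝ) : Integrable (fun z => bt x t z) := by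
  rw [bt_eq]
  exact (integrableOn_const (by simp) (by simp)).integrable_indicator measurableSet_Ico

theorem bt_integral (x t : ℝ) : ∫ z, bt x t z = dist x t := by
  have h := bt_eq x t
  rw [show (∫ z, bt x t z) = ∫ z, (fun z => bt x t z) z from rfl, h,
    integral_indicator measurableSet_Ico, setIntegral_const]
  simp only [Measure.real, Real.volume_Ico, smul_eq_mul, mul_one]
  rw [ENNReal.toReal_ofReal (by simp), max_sub_min_eq_abs, Real.dist_eq, abs_sub_comm]

theorem nt_int {m : ℕ} (hm : 0 < m) (s : Fin m → ℝ) (cap : Fin m → ℕ)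
    (y : List ℝ → Fin m → ℝ) (al : ℝ) (l : List ℝ) :
    Integrable (fun z => Nt hm s cap y al l z) := by
  induction l with
  | nil => exact integrable_zero _ _ _
  | cons x l ih => exact ih.add (bt_int _ _)

theorem nt_integral {m : ℕ} (hm : 0 < m) (s : Fin m → ℝ) (cap : Fin m → ℕ)
    (y : List ℝ → Fin m → ℝ) (al : ℝ) (l : List ℝ) :
    ∫ z, Nt hm s cap y al l z = cost s l (run hm s cap y al l) := by
  induction l with
  | nil => simp [Nt, cost]
  | cons x l ih =>
    have h1 : (∫ z, Nt hm s cap y al (x :: l) z) =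
        ∫ z, (Nt hm s cap y al l z + bt x (s (Al hm s cap y al x l)) z) := rfl
    have h2 : cost s (x :: l) (run hm s cap y al (x :: l)) =
        dist x (s (Al hm s cap y al x l)) + cost s l (run hm s cap y al l) := by
      unfold cost
      rw [show run hm s cap y al (x :: l) =
        Al hm s cap y al x l :: run hm s cap y al l from rfl, List.zipWith_cons_cons,
        List.sum_cons]
    rw [h1, integral_add (nt_int hm s cap y al l) (bt_int _ _), ih, bt_integral, h2, add_comm]

theorem nt_le (h1 : R_Stp) {m : ℕ} (hm : 0 < m) (s : Fin m → ℝ) (cap : Fin m → ℕ)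
    (y : List ℝ → Fin m → ℝ) (al : ℝ) (hF : Fam cap y) (h0 : 0 ≤ al) (ha : al < 1) (z : ℝ)
    (l : List ℝ) : l.length ≤ ∑ j, cap j →
    Nt hm s cap y al l z +
      |((Uc s (run hm s cap y al l) z : ℤ) : ℝ) - ((Vf s (y l) al z : ℤ) : ℝ)| ≤
      Sd s y al l z := by
  induction l with
  | nil =>
    intro _
    have e1 : Uc s (run hm s cap y al []) z = 0 := by simp [Uc, run]
    have e2 : Vf s (y []) al z = 0 := by
      have e3 : Ys s (y []) z = 0 := by
        unfold Ys
        refine Finset.sum_eq_zero fun j _ => ?_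
        rw [hF.1 j, ite_self]
      unfold Vf
      rw [e3, zero_add, Int.floor_eq_iff]
      simpa using ⟨h0, ha⟩
    rw [e1, e2]
    simp [Nt, Sd]
  | cons x l ih =>
    intro hl
    have hl' : l.length ≤ ∑ j, cap j := by
      have := hl
      rw [List.length_cons] at this
      omega
    have h2 := ih hl'
    have h3 := h1 m hm s cap y al x l z hF h0 ha hl
    have e1 : Nt hm s cap y al (x :: l) z =
      Nt hm s cap y al l z + bt x (s (Al hm s cap y al x l)) z := rfl
    have e2 : Sd s y al (x :: l) z = Sd s y al l z + D1 s y al x l z := rfl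
    rw [e1, e2]
    linarith

end CstAux

open CstAux in
theorem cstP (h1 : R_Stp) (h2 : R_Sum) : R_Cst := by
  intro m hm s cap y al l hF h0 ha hl
  rw [← nt_integral]
  refine integral_mono (nt_int hm s cap y al l) ((h2 m s cap y l hF hl).1 al) ?_
  intro z
  have h3 := nt_le h1 hm s cap y al hF h0 ha z l hl
  have h4 := abs_nonneg
    (((Uc s (run hm s cap y al l) z : ℤ) : ℝ) - ((Vf s (y l) al z : ℤ) : ℝ))
  change Nt hm s cap y al l z ≤ Sd s y al l z
  linarith

end Pool.Agent.MP_a4c1f4_lc.SR
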