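import Pool.Agent.Lib.MP_a4c1f4_lc.SR.Spec

set_option autoImplicit false
set_option linter.all false

/-!
MP_a4c1f4_lc, project SR: the functions `dl` are measurable, bounded and have bounded support.
-/

namespace Pool.Agent.MP_a4c1f4_lc.SR

open Finset MeasureTheory
open Pool.Agent.MP_a4c1f4_lc.Dbl.L (assigned cost Respects)
open Pool.Agent.MP_a4c1f4_lc.SO (dl Mov Fam)

namespace DlAux

/-- The number of the requests at most `z`. -/
noncomputable def ct (l : List ℝ) (z : ℝ) : ℝ :=
  (l.map (fun x => if x ≤ z then (1 : ℝ) else 0)).sum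

theorem ct_nil (z : ℝ) : ct [] z = 0 := by simp [ct]

theorem ct_cons (x : ℝ) (l : List ℝ) (z : ℝ) :
    ct (x :: l) z = (if x ≤ z then (1 : ℝ) else 0) + ct l z := by
  simp [ct]

theorem ct_meas (l : List ℝ) : Measurable (ct l) := by
  induction l with
  | nil =>
    have h : ct [] = fun _ => (0 : ℝ) := by
      funext z
      exact ct_nil z
    rw [h]
    exact measurable_const
  | cons x l ih =>
    have h : ct (x :: l) = fun z => (if x ≤ z then (1 : ℝ) else 0) + ct l z := by
      funext z
      exact ct_cons x l z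
    rw [h]
    refine Measurable.add ?_ ih
    exact Measurable.ite (measurableSet_Ici (a := x)) measurable_const measurable_const

theorem ct_bd (l : List ℝ) (z : ℝ) : 0 ≤ ct l z ∧ ct l z ≤ l.length := by
  induction l with
  | nil => simp [ct_nil]
  | cons x l ih =>
    rw [ct_cons, List.length_cons]
    push_cast
    obtain ⟨h1, h2⟩ := ih
    split_ifs <;> constructor <;> linarith

theorem ct_lo (l : List ℝ) (z : ℝ) (h : ∀ x ∈ l, z < x) : ct l z = 0 := by
  induction l with
  | nil => exact ct_nil z
  | cons x l ih =>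
    rw [ct_cons, ih (fun y hy => h y (List.mem_cons_of_mem _ hy))]
    have h1 : ¬ x ≤ z := not_le.mpr (h x (by simp))
    simp [h1]

theorem ct_hi (l : List ℝ) (z : ℝ) (h : ∀ x ∈ l, x ≤ z) : ct l z = l.length := by
  induction l with
  | nil => simp [ct_nil]
  | cons x l ih =>
    rw [ct_cons, ih (fun y hy => h y (List.mem_cons_of_mem _ hy)), List.length_cons]
    have h1 : x ≤ z := h x (by simp)
    simp [h1]
    ring

theorem exL (l : List ℝ) : ∃ L : ℝ, ∀ x ∈ l, |x| ≤ L := by
  induction l with
  | nil => exact ⟨0, by simp⟩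
  | cons x l ih =>
    obtain ⟨L, hL⟩ := ih
    refine ⟨max |x| L, ?_⟩
    intro y hy
    rcases List.mem_cons.mp hy with h | h
    · rw [h]
      exact le_max_left _ _
    · exact le_trans (hL y h) (le_max_right _ _)

end DlAux

open DlAux

/-- The functions `dl`. -/
theorem dlP : R_Dl := by
  intro m s cap y l hF hl
  obtain ⟨hF0, hF1⟩ := hF
  have hsum : ∑ j, y l j = l.length := (hF1 l hl).2
  have hdl : ∀ z, dl s (y l) l z = (∑ j, if s j ≤ z then y l j else 0) - ct l z := by
    intro z
    rfl
  refine ⟨?_, ?_, ?_⟩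
  · have h : dl s (y l) l = fun z => (∑ j, if s j ≤ z then y l j else 0) - ct l z := by
      funext z
      exact hdl z
    rw [h]
    refine Measurable.sub ?_ (ct_meas l)
    refine Finset.measurable_sum _ ?_
    intro j _
    exact Measurable.ite (measurableSet_Ici (a := s j)) measurable_const measurable_const
  · refine ⟨(∑ j, |y l j|) + l.length, ?_⟩
    intro z
    rw [hdl z]
    have h1 : |∑ j, if s j ≤ z then y l j else 0| ≤ ∑ j, |y l j| := by
      refine le_trans (Finset.abs_sum_le_sum_abs _ _) ?_
      refine Finset.sum_le_sum ?_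
      intro j _
      split_ifs
      · exact le_refl _
      · rw [abs_zero]
        exact abs_nonneg _
    obtain ⟨h2, h3⟩ := ct_bd l z
    have h4 := abs_le.mp h1
    rw [abs_le]
    constructor
    · linarith [h4.1, h4.2]
    · linarith [h4.1, h4.2]
  · obtain ⟨L1, hL1⟩ := exL l
    refine ⟨max L1 (∑ j, |s j|), ?_⟩
    intro z hz
    have hz1 : L1 < |z| := lt_of_le_of_lt (le_max_left _ _) hz
    have hz2 : (∑ j, |s j|) < |z| := lt_of_le_of_lt (le_max_right _ _) hz
    have hs : ∀ j, |s j| < |z| := by
      intro j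
      refine lt_of_le_of_lt ?_ hz2
      exact Finset.single_le_sum (f := fun j => |s j|) (fun i _ => abs_nonneg _) (Finset.mem_univ j)
    have hx : ∀ x ∈ l, |x| < |z| := fun x hx => lt_of_le_of_lt (hL1 x hx) hz1
    rw [hdl z]
    rcases le_or_gt 0 z with h | h
    · rw [abs_of_nonneg h] at hs hx
      have h1 : ∀ j, s j ≤ z := fun j => le_of_lt (lt_of_le_of_lt (le_abs_self _) (hs j))
      have h2 : ∀ x ∈ l, x ≤ z := fun x hx' => le_of_lt (lt_of_le_of_lt (le_abs_self _) (hx x hx'))
      rw [ct_hi l z h2]
      have h3 : (∑ j, if s j ≤ z then y l j else 0) = ∑ j, y l j := by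
        refine Finset.sum_congr rfl ?_
        intro j _
        simp [h1 j]
      rw [h3, hsum]
      ring
    · rw [abs_of_neg h] at hs hx
      have h1 : ∀ j, z < s j := by
        intro j
        have := (abs_lt.mp (hs j)).1
        linarith
      have h2 : ∀ x ∈ l, z < x := by
        intro x hx'
        have := (abs_lt.mp (hx x hx')).1
        linarith
      rw [ct_lo l z h2]
      have h3 : (∑ j, if s j ≤ z then y l j else 0) = 0 := by
        refine Finset.sum_eq_zero ?_
        intro j _
        have := not_le.mpr (h1 j)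
        simp [this]
      rw [h3]
      ring

end Pool.Agent.MP_a4c1f4_lc.SR
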