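import Pool.Agent.Lib.MP_a4c1f4_lc.SR.Spec

set_option autoImplicit false

/-!
Rounding: the ends.
-/

namespace Pool.Agent.MP_a4c1f4_lc.SR

open Finset MeasureTheory
open Pool.Agent.MP_a4c1f4_lc.Dbl.L (assigned cost Respects)
open Pool.Agent.MP_a4c1f4_lc.SO (dl Mov Fam)

namespace EndAux

theorem Uc_lo {m : ℕ} (s : Fin m → ℝ) (z : ℝ) (h : ∀ j, z < s j) (u : List (Fin m)) :
    Uc s u z = 0 := by
  induction u with
  | nil => simp [Uc]
  | cons j u ih =>
    unfold Uc at ih ⊢
    rw [List.map_cons, List.sum_cons, ih, if_neg (not_le.2 (h j))]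
    rfl

theorem Uc_hi {m : ℕ} (s : Fin m → ℝ) (z : ℝ) (h : ∀ j, s j ≤ z) (u : List (Fin m)) :
    Uc s u z = u.length := by
  induction u with
  | nil => simp [Uc]
  | cons j u ih =>
    unfold Uc at ih ⊢
    rw [List.map_cons, List.sum_cons, ih, if_pos (h j), List.length_cons]
    push_cast
    ring

end EndAux

theorem endP : R_End := by
  intro m s w u al n h0 h1 hn
  refine ⟨fun z hz => ⟨?_, EndAux.Uc_lo s z hz u⟩, fun z hz => ⟨?_, EndAux.Uc_hi s z hz u⟩⟩
  · have e : Ys s w z = 0 :=
      Finset.sum_eq_zero fun j _ => if_neg (not_le.2 (hz j))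
    unfold Vf
    rw [e, zero_add, Int.floor_eq_iff]
    constructor
    · simpa using h0
    · simpa using h1
  · have e : Ys s w z = n := by
      rw [← hn]
      exact Finset.sum_congr rfl fun j _ => if_pos (hz j)
    unfold Vf
    rw [e, Int.floor_eq_iff]
    constructor
    · push_cast
      linarith
    · push_cast
      linarith

end Pool.Agent.MP_a4c1f4_lc.SR
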