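import Pool.Agent.Lib.MP_a4c1f4_lc.SR.Spec

set_option autoImplicit false

/-!
MP_a4c1f4_lc, project SR: the mean of the floors.
-/

namespace Pool.Agent.MP_a4c1f4_lc.SR

open Finset MeasureTheory
open Pool.Agent.MP_a4c1f4_lc.Dbl.L (assigned cost Respects)
open Pool.Agent.MP_a4c1f4_lc.SO (dl Mov Fam)

namespace FlrAux

theorem mono (a : ℝ) : Monotone (fun t : ℝ => ((⌊a + t⌋ : ℤ) : ℝ)) := by
  intro s t h
  have h1 : ⌊a + s⌋ ≤ ⌊a + t⌋ := Int.floor_mono (by linarith)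
  beta_reduce
  exact_mod_cast h1

theorem intg (a : ℝ) : IntervalIntegrable (fun t : ℝ => ((⌊a + t⌋ : ℤ) : ℝ)) volume 0 1 :=
  (mono a).intervalIntegrable

theorem fract_one : ∫ t in (0 : ℝ)..1, Int.fract t = 1 / 2 := by
  have h1 : ∫ t in (0 : ℝ)..1, Int.fract t = ∫ t in (0 : ℝ)..1, t := by
    rw [intervalIntegral.integral_of_le zero_le_one, intervalIntegral.integral_of_le zero_le_one,
      integral_Ioc_eq_integral_Ioo, integral_Ioc_eq_integral_Ioo]
    apply setIntegral_congr_fun measurableSet_Ioo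
    intro t ht
    exact Int.fract_eq_self.2 ⟨ht.1.le, ht.2⟩
  rw [h1, integral_id]
  norm_num

theorem mean (a : ℝ) : ∫ t in (0 : ℝ)..1, ((⌊a + t⌋ : ℤ) : ℝ) = a := by
  have h1 : ∫ t in (0 : ℝ)..1, Int.fract (a + t) = 1 / 2 := by
    rw [intervalIntegral.integral_comp_add_left (fun t => Int.fract t) a]
    have hper : Function.Periodic (fun t : ℝ => Int.fract t) 1 := by
      intro t
      exact Int.fract_add_one t
    have h2 := hper.intervalIntegral_add_eq (a + 0) 0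
    have h3 : a + 0 + 1 = a + 1 := by ring
    have h4 : (0 : ℝ) + 1 = 1 := by ring
    rw [h3, h4] at h2
    rw [h2]
    exact fract_one
  have h2 : ∀ t : ℝ, Int.fract (a + t) = (a + t) - ((⌊a + t⌋ : ℤ) : ℝ) := fun t => rfl
  simp_rw [h2] at h1
  rw [intervalIntegral.integral_sub (by
      apply Continuous.intervalIntegrable
      fun_prop) (intg a)] at h1
  have h3 : ∫ t in (0 : ℝ)..1, (a + t) = a + 1 / 2 := by
    rw [intervalIntegral.integral_add (by simp) (by simp), integral_id]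
    simp
  rw [h3] at h1
  linarith

theorem half (a b : ℝ) (hab : a ≤ b) : ∫ t in Set.Ico (0 : ℝ) 1,
    |((⌊a + t⌋ : ℤ) : ℝ) - ((⌊b + t⌋ : ℤ) : ℝ)| = |a - b| := by
  have h1 : ∀ t : ℝ, |((⌊a + t⌋ : ℤ) : ℝ) - ((⌊b + t⌋ : ℤ) : ℝ)| =
      ((⌊b + t⌋ : ℤ) : ℝ) - ((⌊a + t⌋ : ℤ) : ℝ) := by
    intro t
    have h2 : ⌊a + t⌋ ≤ ⌊b + t⌋ := Int.floor_mono (by linarith)
    have h3 : ((⌊a + t⌋ : ℤ) : ℝ) ≤ ((⌊b + t⌋ : ℤ) : ℝ) := by exact_mod_cast h2
    rw [abs_of_nonpos (by linarith)]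
    ring
  simp_rw [h1]
  rw [integral_Ico_eq_integral_Ioo, ← integral_Ioc_eq_integral_Ioo,
    ← intervalIntegral.integral_of_le zero_le_one,
    intervalIntegral.integral_sub (intg b) (intg a), mean, mean, abs_of_nonpos (by linarith)]
  ring

end FlrAux

theorem flrP : R_Flr := by
  intro a b
  rcases le_total a b with h | h
  · exact FlrAux.half a b h
  · have h1 := FlrAux.half b a h
    rw [abs_sub_comm b a] at h1
    rw [← h1]
    congr 1
    funext t
    exact abs_sub_comm _ _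

end Pool.Agent.MP_a4c1f4_lc.SR
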