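import Pool.Agent.Lib.MP_a4c1f4_lc.SR.Spec

/-!
MP_a4c1f4_lc, project SR: Fubini for one step.
-/

set_option autoImplicit false

namespace Pool.Agent.MP_a4c1f4_lc.SR

open Finset MeasureTheory
open Pool.Agent.MP_a4c1f4_lc.Dbl.L (assigned cost Respects)
open Pool.Agent.MP_a4c1f4_lc.SO (dl Mov Fam)

namespace FubAux

/-- the function for Fubini -/
noncomputable def F (a b : ℝ → ℝ) (t z : ℝ) : ℝ :=
  |((⌊a z + t⌋ : ℤ) : ℝ) - ((⌊b z + t⌋ : ℤ) : ℝ)|

theorem F_nonneg (a b : ℝ → ℝ) (t z : ℝ) : 0 ≤ F a b t z := abs_nonneg _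

theorem floor_abs (x y : ℝ) : |((⌊x⌋ : ℤ) : ℝ) - ((⌊y⌋ : ℤ) : ℝ)| ≤ |x - y| + 1 := by
  have h1 := Int.floor_le x
  have h2 := Int.lt_floor_add_one x
  have h3 := Int.floor_le y
  have h4 := Int.lt_floor_add_one y
  have h5 := le_abs_self (x - y)
  have h6 := neg_le_abs (x - y)
  rw [abs_le]
  constructor <;> linarith

theorem F_meas (a b : ℝ → ℝ) (ha : Measurable a) (hb : Measurable b) :
    Measurable (fun q : ℝ × ℝ => F a b q.1 q.2) := by
  have hc : Measurable (fun n : ℤ => (n : ℝ)) := measurable_of_countable _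
  have h1 : Measurable (fun q : ℝ × ℝ => ((⌊a q.2 + q.1⌋ : ℤ) : ℝ)) :=
    hc.comp (Int.measurable_floor.comp ((ha.comp measurable_snd).add measurable_fst))
  have h2 : Measurable (fun q : ℝ × ℝ => ((⌊b q.2 + q.1⌋ : ℤ) : ℝ)) :=
    hc.comp (Int.measurable_floor.comp ((hb.comp measurable_snd).add measurable_fst))
  have h3 := (h1.sub h2).norm
  exact h3

/-- the dominating function -/
noncomputable def G (B L : ℝ) (z : ℝ) : ℝ := (Set.Icc (-L) L).indicator (fun _ => 2 * B + 1) z

theorem F_le (a b : ℝ → ℝ) (B L : ℝ) (ha : ∀ z, |a z| ≤ B) (hb : ∀ z, |b z| ≤ B)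
    (hab : ∀ z, L < |z| → a z = b z) (t z : ℝ) : F a b t z ≤ G B L z := by
  unfold G
  by_cases h : z ∈ Set.Icc (-L) L
  · rw [Set.indicator_of_mem h]
    have h1 := floor_abs (a z + t) (b z + t)
    have h2 : |a z + t - (b z + t)| ≤ 2 * B := by
      have e : a z + t - (b z + t) = a z - b z := by ring
      rw [e]
      have := abs_sub (a z) (b z)
      have := ha z
      have := hb z
      linarith
    unfold F
    linarith
  · rw [Set.indicator_of_notMem h]
    have hz : L < |z| := by
      by_contra hn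
      rw [not_lt] at hn
      exact h (abs_le.1 hn)
    unfold F
    rw [hab z hz]
    simp

theorem G_int (B L : ℝ) : Integrable (G B L) := by
  unfold G
  have h : IntegrableOn (fun _ : ℝ => 2 * B + 1) (Set.Icc (-L) L) := by
    apply integrableOn_const
    · rw [Real.volume_Icc]
      exact ENNReal.ofReal_ne_top
    · exact enorm_ne_top
  exact (integrable_indicator_iff measurableSet_Icc).2 h

theorem fin : IsFiniteMeasure (volume.restrict (Set.Ico (0 : ℝ) 1)) := by
  refine ⟨?_⟩
  rw [Measure.restrict_apply MeasurableSet.univ, Set.univ_inter, Real.volume_Ico]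
  exact ENNReal.ofReal_lt_top

end FubAux

open FubAux

/-- Fubini for one step -/
theorem fubP (h1 : R_Flr) : R_Fub := by
  intro a b B L ha hb hA hB hab
  have := fin
  have hm := F_meas a b ha hb
  have h2 : Integrable (fun q : ℝ × ℝ => F a b q.1 q.2)
      ((volume.restrict (Set.Ico (0 : ℝ) 1)).prod volume) := by
    refine Integrable.mono' ((G_int B L).comp_snd (volume.restrict (Set.Ico (0 : ℝ) 1)))
      hm.aestronglyMeasurable ?_
    refine Filter.Eventually.of_forall fun q => ?_
    rw [Real.norm_of_nonneg (F_nonneg _ _ _ _)]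
    exact F_le a b B L hA hB hab q.1 q.2
  refine ⟨?_, ?_, ?_⟩
  · intro t
    change Integrable (fun z => F a b t z)
    refine Integrable.mono' (G_int B L)
      (hm.comp (measurable_const.prodMk measurable_id)).aestronglyMeasurable ?_
    refine Filter.Eventually.of_forall fun z => ?_
    change ‖F a b t z‖ ≤ _
    rw [Real.norm_of_nonneg (F_nonneg _ _ _ _)]
    exact F_le a b B L hA hB hab t z
  · exact h2.integral_prod_left
  · have h3 : ∫ t in Set.Ico (0 : ℝ) 1, ∫ z, F a b t z =
        ∫ z, ∫ t in Set.Ico (0 : ℝ) 1, F a b t z :=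
      integral_integral_swap h2
    change ∫ t in Set.Ico (0 : ℝ) 1, ∫ z, F a b t z = _
    rw [h3]
    apply integral_congr_ae
    refine Filter.Eventually.of_forall fun z => ?_
    exact h1 (a z) (b z)

end Pool.Agent.MP_a4c1f4_lc.SR
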