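import Pool.Agent.Lib.MP_a4c1f4_lc.SR.Spec

set_option autoImplicit false

/-!
MP_a4c1f4_lc, project SR, module Ful: through full sites `Uc - Vf` does not fall (helper30).
-/

namespace Pool.Agent.MP_a4c1f4_lc.SR

open Finset MeasureTheory
open Pool.Agent.MP_a4c1f4_lc.Dbl.L (assigned cost Respects)
open Pool.Agent.MP_a4c1f4_lc.SO (dl Mov Fam)

namespace FulAux

theorem Uc_eq {m : ℕ} (s : Fin m → ℝ) (u : List (Fin m)) (z : ℝ) :
    Uc s u z = ∑ j, if s j ≤ z then (u.count j : ℤ) else 0 := by
  induction u with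
  | nil => simp [Uc]
  | cons a u ih =>
    have h1 : Uc s (a :: u) z = (if s a ≤ z then (1 : ℤ) else 0) + Uc s u z := by
      unfold Uc
      rw [List.map_cons, List.sum_cons]
    have h2 : (if s a ≤ z then (1 : ℤ) else 0) =
        ∑ j, if j = a then (if s j ≤ z then (1 : ℤ) else 0) else 0 := by
      rw [Finset.sum_ite_eq' Finset.univ a, if_pos (Finset.mem_univ a)]
    rw [h1, ih, h2, ← Finset.sum_add_distrib]
    refine Finset.sum_congr rfl fun j _ => ?_
    rw [List.count_cons]
    by_cases hj : j = a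
    · subst hj
      by_cases hs : s j ≤ z
      · simp [hs]; ring
      · simp [hs]
    · have hj' : ¬ a = j := fun h => hj h.symm
      simp [hj, hj']

end FulAux

open FulAux in
theorem fulP : R_Ful := by
  intro m s w cap u al z1 z2 hw hz hfull
  classical
  set c : ℕ := ∑ j, if z1 < s j ∧ s j ≤ z2 then cap j else 0 with hc
  have hY : Ys s w z2 ≤ Ys s w z1 + (c : ℝ) := by
    unfold Ys
    rw [hc, Nat.cast_sum, ← Finset.sum_add_distrib]
    refine Finset.sum_le_sum fun j _ => ?_
    by_cases h1 : s j ≤ z1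
    · have h2 : s j ≤ z2 := h1.trans hz
      have h3 : ¬ (z1 < s j ∧ s j ≤ z2) := fun h => absurd h1 (not_le.mpr h.1)
      rw [if_pos h2, if_pos h1, if_neg h3]
      simp
    · by_cases h2 : s j ≤ z2
      · rw [if_pos h2, if_neg h1, if_pos ⟨not_le.mp h1, h2⟩, zero_add]
        exact hw j
      · rw [if_neg h2, if_neg h1, if_neg (fun h => h2 h.2)]
        simp
  have hV : Vf s w al z2 ≤ Vf s w al z1 + (c : ℤ) := by
    unfold Vf
    rw [← Int.floor_add_intCast]
    apply Int.floor_le_floor
    push_cast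
    linarith
  have hU : Uc s u z1 + (c : ℤ) ≤ Uc s u z2 := by
    rw [Uc_eq, Uc_eq, hc, Nat.cast_sum, ← Finset.sum_add_distrib]
    refine Finset.sum_le_sum fun j _ => ?_
    by_cases h1 : s j ≤ z1
    · have h2 : s j ≤ z2 := h1.trans hz
      have h3 : ¬ (z1 < s j ∧ s j ≤ z2) := fun h => absurd h1 (not_le.mpr h.1)
      rw [if_pos h2, if_pos h1, if_neg h3]
      simp
    · by_cases h2 : s j ≤ z2
      · rw [if_pos h2, if_neg h1, if_pos ⟨not_le.mp h1, h2⟩, zero_add]
        have h4 := hfull j (not_le.mp h1) h2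
        unfold Fr at h4
        exact_mod_cast not_lt.mp h4
      · rw [if_neg h2, if_neg h1, if_neg (fun h => h2 h.2)]
        simp
  linarith

end Pool.Agent.MP_a4c1f4_lc.SR
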