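import Pool.Agent.Lib.MP_a4c1f4_lc.SR.Spec

/-!
MP_a4c1f4_lc, project SR: measurability of the online rule in the random offset (module Mea).
-/

set_option autoImplicit false

namespace Pool.Agent.MP_a4c1f4_lc.SR

open Finset MeasureTheory
open Pool.Agent.MP_a4c1f4_lc.Dbl.L (assigned cost Respects)
open Pool.Agent.MP_a4c1f4_lc.SO (dl Mov Fam)

namespace MeaAux

/-- The set of the offsets for which the rounded mass is at most `c`. -/
theorem meas_le {m : ℕ} (s w : Fin m → ℝ) (x : ℝ) (c : ℤ) :
    MeasurableSet {al : ℝ | Vf s w al x ≤ c} := by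
  have h : Measurable (fun al : ℝ => Vf s w al x) := by
    unfold Vf
    exact Int.measurable_floor.comp (measurable_const.add measurable_id)
  exact measurableSet_le h measurable_const

/-- The choice for fixed used sites. -/
theorem meas_pk {m : ℕ} (hm : 0 < m) (s w : Fin m → ℝ) (cap : Fin m → ℕ) (u : List (Fin m))
    (x : ℝ) (c : ℤ) (j : Fin m) :
    MeasurableSet {al : ℝ | pk hm s cap u x (Vf s w al x ≤ c) = j} := by
  have h : {al : ℝ | pk hm s cap u x (Vf s w al x ≤ c) = j} =
      ({al : ℝ | Vf s w al x ≤ c} ∩ {_al : ℝ | pk hm s cap u x True = j}) ∪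
        ({al : ℝ | Vf s w al x ≤ c}ᶜ ∩ {_al : ℝ | pk hm s cap u x False = j}) := by
    ext al
    simp only [Set.mem_ofPred_eq, Set.mem_union, Set.mem_inter_iff, Set.mem_compl_iff]
    by_cases hP : Vf s w al x ≤ c
    · rw [eq_true hP]
      simp
    · rw [eq_false hP]
      simp
  rw [h]
  have hm1 := meas_le s w x c
  exact (hm1.inter (MeasurableSet.const _)).union (hm1.compl.inter (MeasurableSet.const _))

/-- The sets where the used sites are given. -/
theorem meas_run {m : ℕ} (hm : 0 < m) (s : Fin m → ℝ) (cap : Fin m → ℕ)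
    (y : List ℝ → Fin m → ℝ) (l : List ℝ) :
    ∀ u : List (Fin m), MeasurableSet {al : ℝ | run hm s cap y al l = u} := by
  induction l with
  | nil =>
    intro u
    exact MeasurableSet.const ([] = u)
  | cons x l ih =>
    intro u
    cases u with
    | nil =>
      have h : {al : ℝ | run hm s cap y al (x :: l) = []} = ∅ := by
        ext al
        simp [run]
      rw [h]
      exact MeasurableSet.empty
    | cons j u' =>
      have h : {al : ℝ | run hm s cap y al (x :: l) = j :: u'} =
          {al : ℝ | run hm s cap y al l = u'} ∩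
            {al : ℝ | pk hm s cap u' x (Vf s (y (x :: l)) al x ≤ Uc s u' x) = j} := by
        ext al
        simp only [run, List.cons.injEq, Set.mem_ofPred_eq, Set.mem_inter_iff]
        constructor
        · rintro ⟨h1, h2⟩
          rw [h2] at h1
          exact ⟨h2, h1⟩
        · rintro ⟨h1, h2⟩
          rw [h1]
          exact ⟨h2, rfl⟩
      rw [h]
      exact (ih u').inter (meas_pk hm s _ cap u' x _ j)

end MeaAux

theorem meaP : R_Mea := by
  intro m hm s cap y x l
  refine measurable_to_countable' fun j => ?_
  have h : (fun al => Al hm s cap y al x l) ⁻¹' {j} =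
      ⋃ u : List (Fin m), {al : ℝ | run hm s cap y al l = u} ∩
        {al : ℝ | pk hm s cap u x (Vf s (y (x :: l)) al x ≤ Uc s u x) = j} := by
    ext al
    simp only [Set.mem_preimage, Set.mem_singleton_iff, Set.mem_iUnion, Set.mem_inter_iff,
      Set.mem_ofPred_eq]
    constructor
    · intro h1
      exact ⟨run hm s cap y al l, rfl, h1⟩
    · rintro ⟨u, h1, h2⟩
      unfold Al
      rw [h1]
      exact h2
  rw [h]
  exact MeasurableSet.iUnion fun u =>
    (MeaAux.meas_run hm s cap y l u).inter (MeaAux.meas_pk hm s _ cap u x _ j)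

end Pool.Agent.MP_a4c1f4_lc.SR
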