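import Pool.Agent.Lib.MP_a4c1f4_lc.SR.Spec

set_option autoImplicit false

/-!
MP_a4c1f4_lc, project SR, module Stp: one step of the rounding.
-/

namespace Pool.Agent.MP_a4c1f4_lc.SR

open Finset MeasureTheory
open Pool.Agent.MP_a4c1f4_lc.Dbl.L (assigned cost Respects)
open Pool.Agent.MP_a4c1f4_lc.SO (dl Mov Fam)

namespace StpAux

variable {m : ℕ}

/-- The number of the requests at most `z`. -/
noncomputable def cn (l : List ℝ) (z : ℝ) : ℤ :=
  (l.map (fun x => if x ≤ z then (1 : ℤ) else 0)).sum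

theorem cn_cast (l : List ℝ) (z : ℝ) :
    (l.map (fun x => if x ≤ z then (1 : ℝ) else 0)).sum = ((cn l z : ℤ) : ℝ) := by
  induction l with
  | nil => simp [cn]
  | cons x l ih =>
    unfold cn at ih ⊢
    rw [List.map_cons, List.sum_cons, List.map_cons, List.sum_cons, ih]
    push_cast
    rfl

theorem cn_cons (x : ℝ) (l : List ℝ) (z : ℝ) :
    cn (x :: l) z = (if x ≤ z then (1 : ℤ) else 0) + cn l z := by
  unfold cn
  rw [List.map_cons, List.sum_cons]

theorem dl_floor (s w : Fin m → ℝ) (l : List ℝ) (al z : ℝ) :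
    ⌊dl s w l z + al⌋ = Vf s w al z - cn l z := by
  unfold dl Vf Ys
  rw [cn_cast]
  have h : ((∑ j, if s j ≤ z then w j else 0) - ((cn l z : ℤ) : ℝ)) + al =
      ((∑ j, if s j ≤ z then w j else 0) + al) - ((cn l z : ℤ) : ℝ) := by ring
  rw [h, Int.floor_sub_intCast]

theorem D1_eq (s : Fin m → ℝ) (y : List ℝ → Fin m → ℝ) (al x : ℝ) (l : List ℝ) (z : ℝ) :
    D1 s y al x l z = ((|Vf s (y (x :: l)) al z - (if x ≤ z then (1 : ℤ) else 0) -
      Vf s (y l) al z| : ℤ) : ℝ) := by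
  unfold D1
  rw [dl_floor, dl_floor, cn_cons, Int.cast_abs, ← Int.cast_sub]
  congr 2
  ring

theorem Uc_cons (s : Fin m → ℝ) (j : Fin m) (u : List (Fin m)) (z : ℝ) :
    Uc s (j :: u) z = (if s j ≤ z then (1 : ℤ) else 0) + Uc s u z := by
  unfold Uc
  rw [List.map_cons, List.sum_cons]

theorem bt_eq (x t z : ℝ) :
    bt x t z = (((if min x t ≤ z ∧ z < max x t then (1 : ℤ) else 0) : ℤ) : ℝ) := by
  unfold bt
  split_ifs <;> simp

open Classical in
theorem pk_spec (hm : 0 < m) (s : Fin m → ℝ) (cap : Fin m → ℕ) (u : List (Fin m)) (x : ℝ)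
    (b : Prop) (h : ∃ j, Pk s cap u x b j) : Pk s cap u x b (pk hm s cap u x b) := by
  unfold pk
  rw [dif_pos h]
  exact h.choose_spec

/-- The next free site on the right. -/
theorem exR (s : Fin m → ℝ) (cap : Fin m → ℕ) (u : List (Fin m)) (x : ℝ)
    (h : ∃ j, Fr cap u j ∧ x ≤ s j) :
    ∃ j, Fr cap u j ∧ x ≤ s j ∧ ∀ i, Fr cap u i → x ≤ s i → s j ≤ s i := by
  classical
  obtain ⟨j0, h1, h2⟩ := h
  obtain ⟨j, hj, hmin⟩ := Finset.exists_min_image
    (Finset.univ.filter (fun j => Fr cap u j ∧ x ≤ s j)) s ⟨j0, by simp [h1, h2]⟩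
  rw [Finset.mem_filter] at hj
  exact ⟨j, hj.2.1, hj.2.2, fun i hi hx => hmin i (by simp [hi, hx])⟩

/-- The next free site on the left. -/
theorem exL (s : Fin m → ℝ) (cap : Fin m → ℕ) (u : List (Fin m)) (x : ℝ)
    (h : ∃ j, Fr cap u j ∧ s j ≤ x) :
    ∃ j, Fr cap u j ∧ s j ≤ x ∧ ∀ i, Fr cap u i → s i ≤ x → s i ≤ s j := by
  classical
  obtain ⟨j0, h1, h2⟩ := h
  obtain ⟨j, hj, hmax⟩ := Finset.exists_max_image
    (Finset.univ.filter (fun j => Fr cap u j ∧ s j ≤ x)) s ⟨j0, by simp [h1, h2]⟩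
  rw [Finset.mem_filter] at hj
  exact ⟨j, hj.2.1, hj.2.2, fun i hi hx => hmax i (by simp [hi, hx])⟩

/-- A place above all sites and `x`. -/
theorem above (s : Fin m → ℝ) (x : ℝ) : ∃ z, x ≤ z ∧ ∀ j, s j ≤ z := by
  obtain ⟨B, hB⟩ := (Set.finite_range s).bddAbove
  exact ⟨max x B, le_max_left _ _, fun j => le_max_of_le_right (hB ⟨j, rfl⟩)⟩

/-- A place below all sites and `x`. -/
theorem below (s : Fin m → ℝ) (x : ℝ) : ∃ z, z ≤ x ∧ ∀ j, z < s j := by
  obtain ⟨B, hB⟩ := (Set.finite_range s).bddBelow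
  refine ⟨min x (B - 1), min_le_left _ _, fun j => ?_⟩
  have h1 : B ≤ s j := hB ⟨j, rfl⟩
  have h2 : min x (B - 1) ≤ B - 1 := min_le_right _ _
  linarith

/-- The core of the step, for integers. -/
theorem core (h2 : R_Ful) (h3 : R_End) (hm : 0 < m) (s w : Fin m → ℝ) (cap : Fin m → ℕ)
    (u : List (Fin m)) (al x : ℝ) (n : ℕ) (h0 : 0 ≤ al) (h1 : al < 1) (hw : ∀ j, w j ≤ cap j)
    (hs : ∑ j, w j = ((n + 1 : ℕ) : ℝ)) (hu : u.length = n) (j : Fin m)
    (hj : j = pk hm s cap u x (Vf s w al x ≤ Uc s u x)) (z : ℝ) :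
    |(if s j ≤ z then (1 : ℤ) else 0) + Uc s u z - Vf s w al z| +
        (if min x (s j) ≤ z ∧ z < max x (s j) then (1 : ℤ) else 0) ≤
      |Uc s u z + (if x ≤ z then (1 : ℤ) else 0) - Vf s w al z| := by
  obtain ⟨e1, e2⟩ := h3 m s w u al (n + 1) h0 h1 hs
  have hf := h2 m s w cap u al
  by_cases hP : Vf s w al x ≤ Uc s u x
  · -- right
    have hex : ∃ i, Fr cap u i ∧ x ≤ s i := by
      by_contra hno
      push Not at hno
      obtain ⟨t, ht1, ht2⟩ := above s x
      have h4 := hf x t hw ht1 (fun i hi _ hfr => absurd (hno i hfr) (by linarith [hi]))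
      obtain ⟨h5, h6⟩ := e2 t ht2
      rw [h5, h6, hu] at h4
      push_cast at h4
      omega
    obtain ⟨j0, a1, a2, a3⟩ := exR s cap u x hex
    have hpk := pk_spec hm s cap u x (Vf s w al x ≤ Uc s u x) ⟨j0, a1, Or.inl ⟨hP, a2, a3⟩⟩
    rw [← hj] at hpk
    obtain ⟨-, hpk⟩ := hpk
    rcases hpk with ⟨-, b1, b2⟩ | ⟨hn, -⟩
    · rw [min_eq_left b1, max_eq_right b1]
      by_cases hz1 : x ≤ z
      · by_cases hz2 : z < s j
        · have h4 := hf x z hw hz1 (fun i hi hi2 hfr => absurd (b2 i hfr hi.le) (by linarith))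
          rw [if_neg (not_le.2 hz2), if_pos ⟨hz1, hz2⟩, if_pos hz1]
          rw [abs_of_nonneg (by omega), abs_of_nonneg (by omega)]
          omega
        · rw [if_pos (not_lt.1 hz2), if_neg (fun h => hz2 h.2), if_pos hz1, add_zero,
            add_comm (1 : ℤ)]
      · rw [if_neg (fun h => hz1 (b1.trans h)), if_neg (fun h => hz1 h.1), if_neg hz1]
        simp
    · exact absurd hP hn
  · -- left
    have hex : ∃ i, Fr cap u i ∧ s i ≤ x := by
      by_contra hno
      push Not at hno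
      obtain ⟨t, ht1, ht2⟩ := below s x
      have h4 := hf t x hw ht1 (fun i _ hi hfr => absurd (hno i hfr) (by linarith))
      obtain ⟨h5, h6⟩ := e1 t ht2
      rw [h5, h6] at h4
      omega
    obtain ⟨j0, a1, a2, a3⟩ := exL s cap u x hex
    have hpk := pk_spec hm s cap u x (Vf s w al x ≤ Uc s u x) ⟨j0, a1, Or.inr ⟨hP, a2, a3⟩⟩
    rw [← hj] at hpk
    obtain ⟨-, hpk⟩ := hpk
    rcases hpk with ⟨hn, -⟩ | ⟨-, b1, b2⟩
    · exact absurd hn hP
    · rw [min_eq_right b1, max_eq_left b1]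
      by_cases hz1 : s j ≤ z
      · by_cases hz2 : z < x
        · have h4 := hf z x hw hz2.le (fun i hi hi2 hfr => absurd (b2 i hfr hi2) (by linarith))
          rw [if_pos hz1, if_pos ⟨hz1, hz2⟩, if_neg (not_le.2 hz2)]
          rw [abs_of_nonpos (by omega), abs_of_nonpos (by omega)]
          omega
        · rw [if_pos hz1, if_neg (fun h => hz2 h.2), if_pos (not_lt.1 hz2), add_zero,
            add_comm (1 : ℤ)]
      · rw [if_neg hz1, if_neg (fun h => hz1 h.1), if_neg (fun h => hz1 (b1.trans h))]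
        simp

end StpAux

open StpAux in
theorem stpP (h1 : R_Run) (h2 : R_Ful) (h3 : R_End) : R_Stp := by
  intro m hm s cap y al x l z hF h0 hal hlen
  obtain ⟨-, hlenu, -⟩ := h1 m hm s cap y al l
  obtain ⟨hw, hsum⟩ := hF.2 (x :: l) hlen
  have hc := core h2 h3 hm s (y (x :: l)) cap (run hm s cap y al l) al x l.length h0 hal
    (fun j => (hw j).2) (by rw [hsum, List.length_cons]) hlenu (Al hm s cap y al x l) rfl z
  have hrun : run hm s cap y al (x :: l) = Al hm s cap y al x l :: run hm s cap y al l := rfl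
  rw [hrun, Uc_cons, D1_eq, bt_eq]
  have ht : |Uc s (run hm s cap y al l) z + (if x ≤ z then (1 : ℤ) else 0) -
      Vf s (y (x :: l)) al z| ≤ |Uc s (run hm s cap y al l) z - Vf s (y l) al z| +
      |Vf s (y (x :: l)) al z - (if x ≤ z then (1 : ℤ) else 0) - Vf s (y l) al z| := by
    have e : Uc s (run hm s cap y al l) z + (if x ≤ z then (1 : ℤ) else 0) -
      Vf s (y (x :: l)) al z = (Uc s (run hm s cap y al l) z - Vf s (y l) al z) -
      (Vf s (y (x :: l)) al z - (if x ≤ z then (1 : ℤ) else 0) - Vf s (y l) al z) := by ring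
    rw [e]
    exact abs_sub _ _
  have hall := hc.trans ht
  exact_mod_cast hall

end Pool.Agent.MP_a4c1f4_lc.SR
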