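import Pool.Agent.Lib.MP_a4c1f4_lc.SR.Spec

/-!
MP_a4c1f4_lc, project SR: the sum over all steps (`R_Sum` from `R_Fub` and `R_Dl`).
-/

set_option autoImplicit false

namespace Pool.Agent.MP_a4c1f4_lc.SR

open Finset MeasureTheory
open Pool.Agent.MP_a4c1f4_lc.Dbl.L (assigned cost Respects)
open Pool.Agent.MP_a4c1f4_lc.SO (dl Mov Fam)

theorem sumP (h1 : R_Fub) (h2 : R_Dl) : R_Sum := by
  intro m s cap y l hF
  induction l with
  | nil =>
    intro _
    have e1 : ∀ t : ℝ, (fun z => Sd s y t [] z) = fun _ => (0 : ℝ) := fun t => rfl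
    refine ⟨fun t => ?_, ?_, ?_⟩
    · rw [e1 t]
      exact integrable_zero _ _ _
    · simp only [e1, integral_zero]
      exact integrable_zero _ _ _
    · simp only [e1, integral_zero]
      rfl
  | cons x l ih =>
    intro hl
    have hl' : l.length ≤ ∑ j, cap j := by
      have : (x :: l).length = l.length + 1 := List.length_cons
      omega
    obtain ⟨i1, i2, i3⟩ := ih hl'
    obtain ⟨ma, ⟨Ba, hBa⟩, La, hLa⟩ := h2 m s cap y (x :: l) hF hl
    obtain ⟨mb, ⟨Bb, hBb⟩, Lb, hLb⟩ := h2 m s cap y l hF hl'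
    obtain ⟨f1, f2, f3⟩ := h1 (dl s (y (x :: l)) (x :: l)) (dl s (y l) l) (max Ba Bb) (max La Lb)
      ma mb (fun z => (hBa z).trans (le_max_left _ _)) (fun z => (hBb z).trans (le_max_right _ _))
      (fun z hz => by
        rw [hLa z (lt_of_le_of_lt (le_max_left _ _) hz),
          hLb z (lt_of_le_of_lt (le_max_right _ _) hz)])
    have e1 : ∀ t : ℝ, (∫ z, Sd s y t (x :: l) z) = (∫ z, Sd s y t l z) +
        ∫ z, |((⌊dl s (y (x :: l)) (x :: l) z + t⌋ : ℤ) : ℝ) -
          ((⌊dl s (y l) l z + t⌋ : ℤ) : ℝ)| := by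
      intro t
      exact integral_add (i1 t) (f1 t)
    refine ⟨fun t => (i1 t).add (f1 t), ?_, ?_⟩
    · simp only [e1]
      exact i2.add f2
    · simp only [e1]
      rw [integral_add i2 f2, i3, f3]
      rfl

end Pool.Agent.MP_a4c1f4_lc.SR
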