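import Pool.Agent.Lib.MP_a4c1f4_lc.SR.Run
import Pool.Agent.Lib.MP_a4c1f4_lc.SR.Ful
import Pool.Agent.Lib.MP_a4c1f4_lc.SR.End
import Pool.Agent.Lib.MP_a4c1f4_lc.SR.Stp
import Pool.Agent.Lib.MP_a4c1f4_lc.SR.Flr
import Pool.Agent.Lib.MP_a4c1f4_lc.SR.Fub
import Pool.Agent.Lib.MP_a4c1f4_lc.SR.Dl
import Pool.Agent.Lib.MP_a4c1f4_lc.SR.Sum
import Pool.Agent.Lib.MP_a4c1f4_lc.SR.Cst
import Pool.Agent.Lib.MP_a4c1f4_lc.SR.Mea
import Pool.Agent.Lib.MP_a4c1f4_lc.SR.Rnd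

/-!
MP_a4c1f4_lc, project SR: the rounding without hypotheses.
-/

set_option autoImplicit false

namespace Pool.Agent.MP_a4c1f4_lc.SR

/-- a family of fractional solutions gives a randomized online algorithm -/
theorem rnd : SO.Rnd := by
  have hS : R_Sum := sumP (fubP flrP) dlP
  exact rndP runP hS (cstP (stpP runP fulP endP) hS) meaP

end Pool.Agent.MP_a4c1f4_lc.SR
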