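import Pool.Agent.Lib.MP_a4c1f4_lc.SR.Spec

/-!
MP_a4c1f4_lc, project SR: assembly of the rounding.
-/

set_option autoImplicit false

namespace Pool.Agent.MP_a4c1f4_lc.SR

open Finset MeasureTheory
open Pool.Agent.MP_a4c1f4_lc.Dbl.L (assigned cost Respects)
open Pool.Agent.MP_a4c1f4_lc.SO (dl Mov Fam)

namespace RndAux

theorem prob : IsProbabilityMeasure (volume.restrict (Set.Ico (0 : ℝ) 1)) := by
  refine ⟨?_⟩
  rw [Measure.restrict_apply MeasurableSet.univ, Set.univ_inter, Real.volume_Ico]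
  norm_num

theorem cost_nonneg {m : ℕ} (s : Fin m → ℝ) (l : List ℝ) (τ : List (Fin m)) : 0 ≤ cost s l τ := by
  unfold cost
  refine List.sum_nonneg fun a ha => ?_
  obtain ⟨i, hi, rfl⟩ := List.mem_iff_getElem.1 ha
  rw [List.getElem_zipWith]
  exact dist_nonneg

end RndAux

/-- the rounding -/
theorem rndP (h1 : R_Run) (h2 : R_Sum) (h3 : R_Cst) (h4 : R_Mea) : SO.Rnd := by
  intro m hm s cap y hF
  refine ⟨ℝ, inferInstance, volume.restrict (Set.Ico (0 : ℝ) 1), RndAux.prob,
    Al hm s cap y, fun x l => h4 m hm s cap y x l, ?_, ?_⟩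
  · intro al l hl
    rw [(h1 m hm s cap y al l).1]
    exact (h1 m hm s cap y al l).2.2 hl
  · intro l hl
    obtain ⟨_, hi, hs⟩ := h2 m s cap y l hF hl
    rw [← hs]
    refine integral_mono_of_nonneg (Filter.Eventually.of_forall fun al => RndAux.cost_nonneg _ _ _)
      hi ?_
    filter_upwards [ae_restrict_mem measurableSet_Ico] with al hal
    change cost s l (assigned (Al hm s cap y al) l) ≤ _
    rw [(h1 m hm s cap y al l).1]
    exact h3 m hm s cap y al l hF hal.1 hal.2 hl

end Pool.Agent.MP_a4c1f4_lc.SR
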