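import Pool.Agent.Lib.MP_a4c1f4_lc.SR.Spec

set_option autoImplicit false
set_option linter.all false

/-!
MP_a4c1f4_lc, project SR: the run of the online rule (its sites, its length, its capacities).
-/

namespace Pool.Agent.MP_a4c1f4_lc.SR

open Finset MeasureTheory
open Pool.Agent.MP_a4c1f4_lc.Dbl.L (assigned cost Respects)
open Pool.Agent.MP_a4c1f4_lc.SO (dl Mov Fam)

namespace RunAux

theorem sum_count {m : ℕ} (u : List (Fin m)) : ∑ j, u.count j = u.length := by
  induction u with
  | nil => simp
  | cons a u ih =>
    have h1 : ∀ j : Fin m, (a :: u).count j = u.count j + if a = j then 1 else 0 := by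
      intro j
      rw [List.count_cons]
      by_cases h : a = j
      · subst h
        simp
      · simp [h]
    rw [Finset.sum_congr rfl (fun j _ => h1 j), Finset.sum_add_distrib, ih,
      Finset.sum_ite_eq, if_pos (Finset.mem_univ a), List.length_cons]

theorem exists_free {m : ℕ} (cap : Fin m → ℕ) (u : List (Fin m)) (h : u.length < ∑ j, cap j) :
    ∃ j, Fr cap u j := by
  by_contra hc
  have h1 : ∀ j, cap j ≤ u.count j := by
    intro j
    by_contra hj
    exact hc ⟨j, not_le.mp hj⟩
  have h2 : ∑ j, cap j ≤ ∑ j, u.count j := Finset.sum_le_sum (fun j _ => h1 j)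
  rw [sum_count u] at h2
  omega

theorem pk_free {m : ℕ} (hm : 0 < m) (s : Fin m → ℝ) (cap : Fin m → ℕ) (u : List (Fin m))
    (x : ℝ) (b : Prop) (h : ∃ j, Fr cap u j) : Fr cap u (pk hm s cap u x b) := by
  unfold pk
  split_ifs with h1
  · exact h1.choose_spec.1
  · exact h.choose_spec

end RunAux

theorem runP : R_Run := by
  intro m hm s cap y al l
  induction l with
  | nil =>
    refine ⟨rfl, rfl, ?_⟩
    intro _ j
    simp [run]
  | cons x l ih =>
    obtain ⟨ih1, ih2, ih3⟩ := ih
    refine ⟨?_, ?_, ?_⟩
    · show Al hm s cap y al x l :: assigned (Al hm s cap y al) l = _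
      rw [ih1]
      rfl
    · show (run hm s cap y al l).length + 1 = l.length + 1
      rw [ih2]
    · intro hl
      rw [List.length_cons] at hl
      have h1 : Respects cap (run hm s cap y al l) := ih3 (by omega)
      have h2 : ∃ j, Fr cap (run hm s cap y al l) j := by
        apply RunAux.exists_free
        rw [ih2]
        omega
      have h3 := RunAux.pk_free hm s cap (run hm s cap y al l) x
        (Vf s (y (x :: l)) al x ≤ Uc s (run hm s cap y al l) x) h2
      intro j
      show (pk hm s cap (run hm s cap y al l) x
        (Vf s (y (x :: l)) al x ≤ Uc s (run hm s cap y al l) x) :: run hm s cap y al l).count j ≤ _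
      rw [List.count_cons]
      by_cases hj : pk hm s cap (run hm s cap y al l) x
        (Vf s (y (x :: l)) al x ≤ Uc s (run hm s cap y al l) x) = j
      · rw [hj] at h3
        have h4 : (run hm s cap y al l).count j < cap j := h3
        rw [hj]
        simp only [beq_self_eq_true, if_true]
        omega
      · have h5 := h1 j
        rw [if_neg (by simpa using hj)]
        omega

end Pool.Agent.MP_a4c1f4_lc.SR
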