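import Mathlib
import Pool.Agent.Lib.MP_a4c1f4_lc.Dbl.LDefs
import Pool.Agent.Lib.MP_a4c1f4_lc.SO.Defs

set_option autoImplicit false
set_option linter.all false

/-!
MP_a4c1f4_lc, project SR: the rounding `SO.Rnd` (a family of fractional solutions on the real line
gives a randomized online algorithm). Definitions and statements, each with its proof in words.
Design: helper99. Lists of requests are written with the most recent request first; `al ∈ [0, 1)` is
the random offset.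
-/

namespace Pool.Agent.MP_a4c1f4_lc.SR

open Finset MeasureTheory
open Pool.Agent.MP_a4c1f4_lc.Dbl.L (assigned cost Respects)
open Pool.Agent.MP_a4c1f4_lc.SO (dl Mov Fam)

/-! ## Definitions -/

variable {m : ℕ}

/-- The site `j` is free if the sites `u` are used. -/
def Fr (cap : Fin m → ℕ) (u : List (Fin m)) (j : Fin m) : Prop := u.count j < cap j

/-- `j` is the free site which is next to `x` on the right (if `b`) or on the left (if not `b`). -/
def Pk (s : Fin m → ℝ) (cap : Fin m → ℕ) (u : List (Fin m)) (x : ℝ) (b : Prop) (j : Fin m) : Prop :=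
  Fr cap u j ∧ ((b ∧ x ≤ s j ∧ ∀ i, Fr cap u i → x ≤ s i → s j ≤ s i) ∨
    (¬ b ∧ s j ≤ x ∧ ∀ i, Fr cap u i → s i ≤ x → s i ≤ s j))

open Classical in
/-- The site for the request `x`. -/
noncomputable def pk (hm : 0 < m) (s : Fin m → ℝ) (cap : Fin m → ℕ) (u : List (Fin m)) (x : ℝ)
    (b : Prop) : Fin m :=
  if h : ∃ j, Pk s cap u x b j then h.choose
  else if h : ∃ j, Fr cap u j then h.choose else ⟨0, hm⟩

/-- The mass of `w` at the sites `≤ z`. -/
noncomputable def Ys (s w : Fin m → ℝ) (z : ℝ) : ℝ := ∑ j, if s j ≤ z then w j else 0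

/-- The rounded mass. -/
noncomputable def Vf (s w : Fin m → ℝ) (al z : ℝ) : ℤ := ⌊Ys s w z + al⌋

/-- The number of the used sites `≤ z`. -/
noncomputable def Uc (s : Fin m → ℝ) (u : List (Fin m)) (z : ℝ) : ℤ :=
  (u.map (fun j => if s j ≤ z then (1 : ℤ) else 0)).sum

/-- The used sites of the run. -/
noncomputable def run (hm : 0 < m) (s : Fin m → ℝ) (cap : Fin m → ℕ) (y : List ℝ → Fin m → ℝ)
    (al : ℝ) : List ℝ → List (Fin m)
  | [] => []
  | x :: l => pk hm s cap (run hm s cap y al l) x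
      (Vf s (y (x :: l)) al x ≤ Uc s (run hm s cap y al l) x) :: run hm s cap y al l

/-- The online rule. -/
noncomputable def Al (hm : 0 < m) (s : Fin m → ℝ) (cap : Fin m → ℕ) (y : List ℝ → Fin m → ℝ)
    (al x : ℝ) (l : List ℝ) : Fin m :=
  pk hm s cap (run hm s cap y al l) x (Vf s (y (x :: l)) al x ≤ Uc s (run hm s cap y al l) x)

/-- Indicator of the interval between `x` and `t`. -/
noncomputable def bt (x t z : ℝ) : ℝ := if min x t ≤ z ∧ z < max x t then 1 else 0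

/-- The change of the rounded differences at `z` in one step. -/
noncomputable def D1 (s : Fin m → ℝ) (y : List ℝ → Fin m → ℝ) (al x : ℝ) (l : List ℝ) (z : ℝ) : ℝ :=
  |((⌊dl s (y (x :: l)) (x :: l) z + al⌋ : ℤ) : ℝ) - ((⌊dl s (y l) l z + al⌋ : ℤ) : ℝ)|

/-- The sum of all changes at `z`. -/
noncomputable def Sd (s : Fin m → ℝ) (y : List ℝ → Fin m → ℝ) (al : ℝ) : List ℝ → ℝ → ℝ
  | [], _ => 0
  | x :: l, z => Sd s y al l z + D1 s y al x l z

/-! ## Statements -/

/-- PROOF. (1) Induction on `l`: `Al` for `x, l` is the head of `run (x :: l)`. (2) Induction.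
(3) Induction: if `(x :: l).length ≤ ∑ cap`, then `u = run l` respects `cap` and
`u.length = l.length < ∑ cap`, `u.length = ∑ j, u.count j`, so some `j` is free; `pk` is free in both cases
of its definition (`Exists.choose_spec`); `List.count_cons`. -/
def R_Run : Prop := ∀ (m : ℕ) (hm : 0 < m) (s : Fin m → ℝ) (cap : Fin m → ℕ)
  (y : List ℝ → Fin m → ℝ) (al : ℝ) (l : List ℝ),
  assigned (Al hm s cap y al) l = run hm s cap y al l ∧
  (run hm s cap y al l).length = l.length ∧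
  (l.length ≤ ∑ j, cap j → Respects cap (run hm s cap y al l))

/-- Through full sites `Uc - Vf` does not fall. PROOF. `Ys z2 - Ys z1 = ∑_{z1 < s j ≤ z2} w j ≤
∑_{z1 < s j ≤ z2} cap j =: c` (an integer), so `⌊Ys z2 + al⌋ ≤ ⌊Ys z1 + al⌋ + c` (`Int.floor_add_natCast` or
`Int.floor_add_intCast`). And `Uc z2 - Uc z1 = ∑_{z1 < s j ≤ z2} u.count j ≥ c` since these sites are not
free (first show `Uc s u z = ∑ j, if s j ≤ z then (u.count j : ℤ) else 0` by induction on `u`). -/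
def R_Ful : Prop := ∀ (m : ℕ) (s w : Fin m → ℝ) (cap : Fin m → ℕ) (u : List (Fin m)) (al z1 z2 : ℝ),
  (∀ j, w j ≤ cap j) → z1 ≤ z2 → (∀ j, z1 < s j → s j ≤ z2 → ¬ Fr cap u j) →
  Vf s w al z2 - Vf s w al z1 ≤ Uc s u z2 - Uc s u z1

/-- The ends. PROOF. Below all sites all sums vanish and `⌊al⌋ = 0`; above all sites `Ys = ∑ w = n`,
`⌊n + al⌋ = n`, `Uc = u.length`. -/
def R_End : Prop := ∀ (m : ℕ) (s w : Fin m → ℝ) (u : List (Fin m)) (al : ℝ) (n : ℕ), 0 ≤ al → al < 1 →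
  ∑ j, w j = n →
  (∀ z, (∀ j, z < s j) → Vf s w al z = 0 ∧ Uc s u z = 0) ∧
  (∀ z, (∀ j, s j ≤ z) → Vf s w al z = n ∧ Uc s u z = u.length)

/-- One step. PROOF. Write `u = run l`, `j = pk ..` (the head of `run (x :: l)`), `w = y (x :: l)`,
`T z = Uc u z + 1 [x ≤ z] - Vf w z`, `R z = Uc u z - Vf (y l) z`, `R' z = Uc (j :: u) z - Vf w z`. Since
`dl s (y l) l z = Ys s (y l) z - c` with an integer `c = #{l ≤ z}`, and `c + 1 [x ≤ z]` for `x :: l`,
`D1 = |(Vf w z - 1 [x ≤ z]) - Vf (y l) z|`, so `T = R -` (the number inside) and `|T| ≤ |R| + D1`.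
`R' z = T z - 1 [x ≤ z] + 1 [s j ≤ z]`. RIGHT: `Vf w x ≤ Uc u x`, that is `1 ≤ T x`. There is a free site
`≥ x` (otherwise `R_Ful` with `w`, `z1 = x`, `z2` above all sites and `x` gives `T z2 ≥ T x ≥ 1`, but
`T z2 = u.length + 1 - (l.length + 1) = 0` by `R_End`), so `Pk` has a solution (a free site `≥ x` with least
`s`, `Finset.exists_min_image`) and `j` satisfies `Pk`. For `x ≤ z < s j` no free site is in `(x, z]`, so
`T z ≥ T x ≥ 1` and `|R' z| = |T z - 1| = |T z| - 1`; for the other `z`: `R' z = T z`. LEFT: `T x ≤ 0`.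
There is a free site `≤ x` (otherwise `R_Ful` with `z1` below all sites and `x`, `z2 = x`: `0 = T z1 ≤
T x - 1 < 0`), `j` satisfies `Pk`; for `s j ≤ z < x` no free site is in `(z, x]`, so `T z ≤ T x - 1 ≤ -1`
and `|R' z| = |T z + 1| = |T z| - 1`. -/
def R_Stp : Prop := ∀ (m : ℕ) (hm : 0 < m) (s : Fin m → ℝ) (cap : Fin m → ℕ)
  (y : List ℝ → Fin m → ℝ) (al x : ℝ) (l : List ℝ) (z : ℝ), Fam cap y → 0 ≤ al → al < 1 →
  (x :: l).length ≤ ∑ j, cap j →
  |((Uc s (run hm s cap y al (x :: l)) z : ℤ) : ℝ) - ((Vf s (y (x :: l)) al z : ℤ) : ℝ)| +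
      bt x (s (Al hm s cap y al x l)) z ≤
    |((Uc s (run hm s cap y al l) z : ℤ) : ℝ) - ((Vf s (y l) al z : ℤ) : ℝ)| + D1 s y al x l z

/-- The mean of the floors. PROOF. Let `a ≤ b` (symmetry). Then the difference of the floors has a sign
and it is enough that `∫_0^1 ⌊a + t⌋ dt = a`: `⌊a + t⌋ = a + t - Int.fract (a + t)`, and
`∫_0^1 fract (a + t) dt = ∫_a^{a+1} fract = ∫_0^1 fract = ∫_0^1 t dt = 1/2` (`Int.fract` is periodic,
`Function.Periodic.intervalIntegral_add_eq`). -/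
def R_Flr : Prop := ∀ a b : ℝ, ∫ t in Set.Ico (0 : ℝ) 1,
  |((⌊a + t⌋ : ℤ) : ℝ) - ((⌊b + t⌋ : ℤ) : ℝ)| = |a - b|

/-- Fubini for one step. PROOF. `F (t, z) = |⌊a z + t⌋ - ⌊b z + t⌋|` is measurable (`Int.measurable_floor`),
`0 ≤ F ≤ 2 B + 1` for the relevant `t`, and `F = 0` for `|z| > L`. So `F` is integrable on
`Ico 0 1 × ℝ` (bounded and supported in `Ico 0 1 × Icc (-L) L`), (1) the same for fixed `t`,
(2) `Integrable.integral_prod_left`, (3) `integral_integral_swap` and `R_Flr`. -/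
def R_Fub : Prop := ∀ (a b : ℝ → ℝ) (B L : ℝ), Measurable a → Measurable b → (∀ z, |a z| ≤ B) →
  (∀ z, |b z| ≤ B) → (∀ z, L < |z| → a z = b z) →
  (∀ t : ℝ, Integrable (fun z => |((⌊a z + t⌋ : ℤ) : ℝ) - ((⌊b z + t⌋ : ℤ) : ℝ)|)) ∧
  Integrable (fun t : ℝ => ∫ z, |((⌊a z + t⌋ : ℤ) : ℝ) - ((⌊b z + t⌋ : ℤ) : ℝ)|)
    (volume.restrict (Set.Ico (0 : ℝ) 1)) ∧
  ∫ t in Set.Ico (0 : ℝ) 1, ∫ z, |((⌊a z + t⌋ : ℤ) : ℝ) - ((⌊b z + t⌋ : ℤ) : ℝ)| =
    ∫ z, |a z - b z|

/-- The functions `dl`. PROOF. `dl s (y l) l` is a finite sum of constants times indicators of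
`{z | s j ≤ z}`, `{z | x ≤ z}`: measurable, bounded by `∑ |y l j| + l.length`. `L` larger than all `|s j|` and
`|x|`, `x ∈ l`: for `z < -L` all terms vanish, for `z > L` the value is `∑ y l j - l.length = 0`. -/
def R_Dl : Prop := ∀ (m : ℕ) (s : Fin m → ℝ) (cap : Fin m → ℕ) (y : List ℝ → Fin m → ℝ)
  (l : List ℝ), Fam cap y → l.length ≤ ∑ j, cap j →
  Measurable (dl s (y l) l) ∧ (∃ B : ℝ, ∀ z, |dl s (y l) l z| ≤ B) ∧
    ∃ L : ℝ, ∀ z, L < |z| → dl s (y l) l z = 0

/-- The sum over all steps. PROOF. Induction on `l` for the two statements together; step: `R_Fub` for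
`a = dl s (y (x :: l)) (x :: l)`, `b = dl s (y l) l` (`R_Dl`, maximum of the two `B`, `L`), `integral_add`, and
`Mov s y (x :: l) = Mov s y l + ∫ |a - b|`. -/
def R_Sum : Prop := ∀ (m : ℕ) (s : Fin m → ℝ) (cap : Fin m → ℕ) (y : List ℝ → Fin m → ℝ)
  (l : List ℝ), Fam cap y → l.length ≤ ∑ j, cap j →
  (∀ t : ℝ, Integrable (fun z => Sd s y t l z)) ∧
  Integrable (fun t : ℝ => ∫ z, Sd s y t l z) (volume.restrict (Set.Ico (0 : ℝ) 1)) ∧
  ∫ t in Set.Ico (0 : ℝ) 1, ∫ z, Sd s y t l z = Mov s y l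

/-- The cost of one run. PROOF. `N l z = ∑ bt` over the steps (recursion on `l`). By `R_Stp` and induction
`N l z + |Uc (run l) z - Vf (y l) z| ≤ Sd l z` (for `l = []`: `Uc = 0`, `Vf = ⌊0 + al⌋ = 0` as `y [] = 0`), so
`N l z ≤ Sd l z`. `cost s l (run l) = ∫ N l z dz` (`∫ bt x t z dz = |x - t|`; `bt` is the indicator of
`Ico (min x t) (max x t)`, integrable), `integral_mono` with `R_Sum` (1). -/
def R_Cst : Prop := ∀ (m : ℕ) (hm : 0 < m) (s : Fin m → ℝ) (cap : Fin m → ℕ)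
  (y : List ℝ → Fin m → ℝ) (al : ℝ) (l : List ℝ), Fam cap y → 0 ≤ al → al < 1 →
  l.length ≤ ∑ j, cap j → cost s l (run hm s cap y al l) ≤ ∫ z, Sd s y al l z

/-- Measurability. PROOF. (1) For all `l` and `u`: the set `{al | run al l = u}` is measurable, by induction
on `l`: `run al (x :: l) = j :: u'` iff `run al l = u'` and `pk u' x (Vf s (y (x :: l)) al x ≤ Uc s u' x) = j`;
the set `{al | Vf s w al x ≤ c} = {al | ⌊Ys s w x + al⌋ ≤ c}` is measurable (`Int.measurable_floor`), and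
`pk u' x b` depends on `b` only through its truth value (`propext`). (2) `{al | Al al x l = j}` is the
countable union over `u : List (Fin m)` of `{run al l = u} ∩ {pk u x (..) = j}`; `measurable_to_countable'`
or `measurable_of_finite`-like lemmas for the target `Fin m`. -/
def R_Mea : Prop := ∀ (m : ℕ) (hm : 0 < m) (s : Fin m → ℝ) (cap : Fin m → ℕ)
  (y : List ℝ → Fin m → ℝ) (x : ℝ) (l : List ℝ), Measurable (fun al => Al hm s cap y al x l)

end Pool.Agent.MP_a4c1f4_lc.SR
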